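import Pool.Agent.helper52.EU.SpecY

set_option autoImplicit false

open Finset

namespace Pool.Agent.EU

open Pool.Agent.FI Pool.Agent.HK Pool.Agent.BP Pool.Agent.YB
open Pool.Agent.CH (nit)

open MeasureTheory

private theorem MV2_ind (z : ℤ × ℤ) (h : ℝ) (f : ℝ) :
    (fun y : ℝ => if y < yy z ∧ yy z ≤ y + h then f else 0) = Set.indicator (Set.Ico (yy z - h) (yy z)) (fun _ => f) := by
  funext y
  rw [Set.indicator_apply]
  refine if_congr ?_ rfl rfl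
  rw [Set.mem_Ico]
  constructor
  · rintro ⟨h1, h2⟩
    exact ⟨by linarith, h1⟩
  · rintro ⟨h1, h2⟩
    exact ⟨h2, by linarith⟩

private theorem MV2_int1 (z : ℤ × ℤ) (h f : ℝ) (hh : 0 < h) :
    Integrable (fun y : ℝ => if y < yy z ∧ yy z ≤ y + h then f else 0) ∧
      ∫ y : ℝ, (if y < yy z ∧ yy z ≤ y + h then f else 0) = h * f := by
  rw [MV2_ind]
  constructor
  · rw [integrable_indicator_iff measurableSet_Ico]
    exact integrableOn_const (by simp)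
  · rw [integral_indicator measurableSet_Ico, setIntegral_const, measureReal_def, Real.volume_Ico, ENNReal.toReal_ofReal (by linarith)]
    simp

private theorem MV2_card {C : ℝ} (hC : 0 < C) (hS : ∀ (v : ℕ) (c ρ : ℝ), 1 ≤ v → 0 ≤ ρ →
    ((#({z ∈ FE v | |yy z - c| ≤ ρ}) : ℕ) : ℝ) ≤ C * (ρ * v + √(v : ℝ))) {N : ℕ} (hN : 1 ≤ N) {h : ℝ} (hh : 0 < h) (y : ℝ) :
    ((#{z ∈ FF N | y < yy z ∧ yy z ≤ y + h} : ℕ) : ℝ) ≤ C * (h * N + √(N : ℝ)) := by
  classical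
  have h2 : #{z ∈ FF N | y < yy z ∧ yy z ≤ y + h} ≤ #{z ∈ FE N | |yy z - (y + h / 2)| ≤ h / 2} := by
    refine Finset.card_le_card fun z hz => ?_
    rw [Finset.mem_filter] at hz ⊢
    obtain ⟨hz1, hz2, hz3⟩ := hz
    refine ⟨?_, ?_⟩
    · have h3 := hz1
      classical
      unfold FF at h3
      rw [Finset.mem_filter, Finset.mem_product, Finset.mem_Icc, Finset.mem_Icc] at h3
      unfold FE
      rw [Finset.mem_filter]
      refine ⟨?_, h3.2.1.2, h3.2.2⟩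
      unfold Bx
      rw [Finset.mem_product, Finset.mem_Icc, Finset.mem_Icc]
      have h4 := h3.1
      push_cast at h4 ⊢
      exact h4
    · rw [abs_le]
      constructor <;> linarith
  have h3 := hS N (y + h / 2) (h / 2) hN (by linarith)
  have h4 : ((#{z ∈ FF N | y < yy z ∧ yy z ≤ y + h} : ℕ) : ℝ) ≤
      ((#{z ∈ FE N | |yy z - (y + h / 2)| ≤ h / 2} : ℕ) : ℝ) := by exact_mod_cast h2
  refine h4.trans (h3.trans ?_)
  refine mul_le_mul_of_nonneg_left ?_ hC.le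
  have h5 : (0 : ℝ) ≤ N := Nat.cast_nonneg N
  nlinarith [mul_nonneg hh.le h5]

theorem MV2 (hFRQ : FRQ_stmt) (hSCW : SCW_stmt) (hYYB : YYB_stmt) : MV2_stmt := by
  classical
  obtain ⟨C1, hC1, h1⟩ := hFRQ
  obtain ⟨C2, hC2, h2⟩ := hSCW
  refine ⟨4 * C1 * C2, by positivity, ?_⟩
  intro N M₁ α b hN hM hα hα'
  have hMr : (1 : ℝ) ≤ M₁ := by exact_mod_cast hM
  have hM0 : (0 : ℝ) < M₁ := by linarith
  obtain ⟨h, hh⟩ : ∃ h : ℝ, h = 1 / (4 * M₁) := ⟨_, rfl⟩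
  have hh0 : 0 < h := by rw [hh]; positivity
  have hhM : h * M₁ = 1 / 4 := by rw [hh]; field_simp
  have hB : ∀ z ∈ FF N, |yy z| ≤ lep := by
    intro z hz
    refine hYYB z ?_
    unfold FF at hz
    rw [Finset.mem_filter] at hz
    exact hz.2.1
  have h3 := h1 (FF N) b α h M₁ hB hα hα' hM hh0 hhM.le
  refine h3.trans ?_
  -- the window
  have hcard := fun y => MV2_card hC2 h2 hN hh0 y
  obtain ⟨B, hBd⟩ : ∃ B : ℝ, B = C2 * (h * N + √(N : ℝ)) := ⟨_, rfl⟩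
  have hB0 : 0 ≤ B := by rw [hBd]; positivity
  have hint : Integrable (fun y : ℝ => B * ∑ z ∈ FF N, if y < yy z ∧ yy z ≤ y + h then ‖b z‖ ^ 2 else 0) :=
    (integrable_finsetSum _ fun z _ => (MV2_int1 z h _ hh0).1).const_mul B
  have hval : ∫ y : ℝ, B * ∑ z ∈ FF N, (if y < yy z ∧ yy z ≤ y + h then ‖b z‖ ^ 2 else 0) =
      B * (h * ∑ z ∈ FF N, ‖b z‖ ^ 2) := by
    rw [integral_const_mul, integral_finsetSum _ fun z _ => (MV2_int1 z h _ hh0).1,
      Finset.sum_congr rfl fun z _ => (MV2_int1 z h _ hh0).2, ← Finset.mul_sum]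
  have hle : ∫ y : ℝ, ‖∑ z ∈ FF N with (y < yy z ∧ yy z ≤ y + h), b z‖ ^ 2 ≤ B * (h * ∑ z ∈ FF N, ‖b z‖ ^ 2) := by
    rw [← hval]
    refine integral_mono_of_nonneg (Filter.Eventually.of_forall fun y => by positivity) hint
      (Filter.Eventually.of_forall fun y => ?_)
    simp only
    rw [← Finset.sum_filter]
    have h4 : ‖∑ z ∈ FF N with (y < yy z ∧ yy z ≤ y + h), b z‖ ^ 2 ≤
        (∑ z ∈ FF N with (y < yy z ∧ yy z ≤ y + h), ‖b z‖) ^ 2 :=
      pow_le_pow_left₀ (norm_nonneg _) (norm_sum_le _ _) 2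
    have h5 := sq_sum_le_card_mul_sum_sq (s := (FF N).filter fun z => y < yy z ∧ yy z ≤ y + h) (f := fun z => ‖b z‖)
    refine h4.trans (h5.trans ?_)
    refine mul_le_mul_of_nonneg_right ?_ (Finset.sum_nonneg fun z _ => by positivity)
    rw [hBd]
    exact hcard y
  have h6 : 0 ≤ ∑ z ∈ FF N, ‖b z‖ ^ 2 := Finset.sum_nonneg fun z _ => by positivity
  refine (mul_le_mul_of_nonneg_left hle (by positivity)).trans ?_
  have h7 : C1 / h ^ 2 * (B * (h * ∑ z ∈ FF N, ‖b z‖ ^ 2)) = C1 * B / h * ∑ z ∈ FF N, ‖b z‖ ^ 2 := by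
    field_simp
  rw [h7]
  refine mul_le_mul_of_nonneg_right ?_ h6
  have h8 : C1 * B / h = C1 * C2 * (N + 4 * M₁ * √(N : ℝ)) := by
    have h9 : 1 / h = 4 * M₁ := by rw [hh]; field_simp
    rw [hBd]
    have h10 : C1 * (C2 * (h * N + √(N : ℝ))) / h = C1 * C2 * (N + (1 / h) * √(N : ℝ)) := by
      field_simp
    rw [h10, h9]
  rw [h8]
  have h11 : (0 : ℝ) ≤ N := Nat.cast_nonneg N
  have h12 : C1 * C2 * (N + 4 * M₁ * √(N : ℝ)) ≤ C1 * C2 * (4 * (N + M₁ * √(N : ℝ))) :=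
    mul_le_mul_of_nonneg_left (by linarith) (by positivity)
  linarith

end Pool.Agent.EU
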