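import Pool.Agent.helper52.EU.SpecY
import Pool.Agent.helper72.HK.MUL

set_option autoImplicit false

open Finset

namespace Pool.Agent.EU

open Pool.Agent.FI Pool.Agent.HK Pool.Agent.BP Pool.Agent.YB
open Pool.Agent.CH (nit)

/-- the associate in the fundamental domain -/
private noncomputable def PR2_rep (hFDE : FDE_stmt) (ζ : ℤ × ℤ) : ℤ × ℤ :=
  if h : ζ.1 % 2 = 1 then mul8 (hFDE ζ h).choose ζ else (0, 0)

private lemma PR2_rep_spec (hFDE : FDE_stmt) (ζ : ℤ × ℤ) (h : ζ.1 % 2 = 1) :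
    ∃ u : ℤ × ℤ, N8 u = 1 ∧ PR2_rep hFDE ζ = mul8 u ζ ∧ Fd (PR2_rep hFDE ζ) := by
  refine ⟨(hFDE ζ h).choose, (hFDE ζ h).choose_spec.1, ?_, ?_⟩
  · rw [PR2_rep, dif_pos h]
  · rw [PR2_rep, dif_pos h]
    exact (hFDE ζ h).choose_spec.2

private lemma PR2_mem {u : ℕ} {z : ℤ × ℤ} (hSIZ : SIZ_stmt) : z ∈ FF u ↔ Fd z ∧ nn z ≤ u := by
  classical
  unfold FF
  rw [Finset.mem_filter]
  constructor
  · exact fun h => h.2
  · intro h
    refine ⟨?_, h⟩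
    obtain ⟨h1, h2, h3, -, -⟩ := hSIZ z h.1
    have hu : (nn z : ℤ) ≤ u := by exact_mod_cast h.2
    have h0 : (1 : ℤ) ≤ nn z := by exact_mod_cast h3
    rw [Finset.mem_product, Finset.mem_Icc, Finset.mem_Icc]
    refine ⟨⟨?_, ?_⟩, ?_, ?_⟩ <;> nlinarith

/-- the number of the pairs with a given product -/
private lemma PR2_card (hFDE : FDE_stmt) (hFDU : FDU_stmt) (hCN2 : CN2_stmt) (hSIZ : SIZ_stmt) (M N : ℕ)
    (v : ℤ × ℤ) (hv : Fd v) :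
    ((FF M ×ˢ FF N).filter fun p => PR2_rep hFDE (mul8 p.1 p.2) = v).card ≤ (nn v).divisors.card ^ 3 := by
  classical
  set S : Finset (ℤ × ℤ) := (nn v).divisors.biUnion fun m => (FF m).filter fun z => nn z = m with hS
  have hSc : S.card ≤ (nn v).divisors.card ^ 3 := by
    refine le_trans Finset.card_biUnion_le ?_
    refine le_trans (Finset.sum_le_card_nsmul _ _ ((nn v).divisors.card ^ 2) ?_) ?_
    · intro m hm
      obtain ⟨-, -, h3, -, h5⟩ := hSIZ v hv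
      have hmo : Odd m := by
        have : Odd (nn v) := by
          rw [Nat.odd_iff]
          rcases h5 with ⟨-, h⟩ | ⟨-, h⟩ <;> omega
        exact this.of_dvd_nat (Nat.dvd_of_mem_divisors hm)
      refine le_trans (hCN2 m hmo) ?_
      exact Nat.pow_le_pow_left (Finset.card_le_card (Nat.divisors_subset_of_dvd h3.ne' (Nat.dvd_of_mem_divisors hm))) 2
    · rw [smul_eq_mul, pow_succ' _ 2]
  refine le_trans (Finset.card_le_card_of_injOn (fun p => p.1) ?_ ?_) hSc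
  · intro p hp
    rw [Finset.mem_coe, Finset.mem_filter, Finset.mem_product] at hp
    obtain ⟨⟨h1, h2⟩, h3⟩ := hp
    obtain ⟨f1, n1⟩ := (PR2_mem hSIZ).1 h1
    obtain ⟨f2, n2⟩ := (PR2_mem hSIZ).1 h2
    obtain ⟨u, hu1, hu2, -⟩ := PR2_rep_spec hFDE (mul8 p.1 p.2) (MUL_odd f1.1 f2.1)
    have hnn : nn v = nn p.1 * nn p.2 := by
      rw [← h3, hu2, MUL_nn, MUL_nn, MUL_nn1 hu1, one_mul]
    have h0 : 0 < nn v := (hSIZ v hv).2.2.1
    rw [hS, Finset.mem_coe, Finset.mem_biUnion]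
    refine ⟨nn p.1, ?_, ?_⟩
    · rw [Nat.mem_divisors]
      exact ⟨⟨nn p.2, hnn⟩, h0.ne'⟩
    · rw [Finset.mem_filter]
      exact ⟨(PR2_mem hSIZ).2 ⟨f1, le_rfl⟩, rfl⟩
  · intro p hp q hq hpq
    rw [Finset.mem_coe, Finset.mem_filter, Finset.mem_product] at hp hq
    obtain ⟨⟨h1, h2⟩, h3⟩ := hp
    obtain ⟨⟨g1, g2⟩, g3⟩ := hq
    have e1 : p.1 = q.1 := hpq
    obtain ⟨f1, -⟩ := (PR2_mem hSIZ).1 h1
    obtain ⟨f2, -⟩ := (PR2_mem hSIZ).1 h2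
    obtain ⟨f4, -⟩ := (PR2_mem hSIZ).1 g2
    obtain ⟨u, hu1, hu2, -⟩ := PR2_rep_spec hFDE (mul8 p.1 p.2) (MUL_odd f1.1 f2.1)
    obtain ⟨w, hw1, hw2, -⟩ := PR2_rep_spec hFDE (mul8 p.1 q.2) (MUL_odd f1.1 f4.1)
    rw [← e1] at g3
    have h4 : mul8 u (mul8 p.1 p.2) = mul8 w (mul8 p.1 q.2) := by
      rw [← hu2, ← hw2, h3, g3]
    have h5 : mul8 p.1 (mul8 (mul8 (cj w) u) p.2) = mul8 p.1 q.2 := by
      have h6 := congrArg (mul8 (cj w)) h4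
      rw [MUL_cj1 hw1] at h6
      rw [← h6, MUL_left p.1 (mul8 (cj w) u) p.2, ← MUL_assoc (cj w) u (mul8 p.1 p.2)]
    have h6 := MUL_cancel f1.1 h5
    have hN : nn (mul8 (cj w) u) = 1 := by
      rw [MUL_nn, MUL_nn1 hu1, MUL_nn1 (by rw [MUL_cjn, hw1]), one_mul]
    have h7 : mul8 (cj w) u = (1, 0) := by
      refine hFDU p.2 _ f2 hN ?_
      rw [h6]
      exact f4
    rw [h7, MUL_one] at h6
    exact Prod.ext e1 h6


theorem PR2 (hFDE : FDE_stmt) (hFDU : FDU_stmt) (hCN2 : CN2_stmt) (hSIZ : SIZ_stmt) : PR2_stmt := by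
  classical
  intro M N F G hM hN hG hF
  refine ⟨fun v => ∑ p ∈ (FF M ×ˢ FF N).filter (fun p => PR2_rep hFDE (mul8 p.1 p.2) = v), F p.1 p.2, ?_, ?_, ?_⟩
  · intro v
    by_cases hne : ((FF M ×ˢ FF N).filter (fun p => PR2_rep hFDE (mul8 p.1 p.2) = v)).Nonempty
    swap
    · rw [Finset.not_nonempty_iff_eq_empty] at hne
      simp only [hne, Finset.sum_empty, norm_zero]
      exact mul_nonneg (by positivity) (hG _)
    have hfv : Fd v := by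
      obtain ⟨p, hp⟩ := hne
      rw [Finset.mem_filter, Finset.mem_product] at hp
      obtain ⟨⟨h1, h2⟩, h3⟩ := hp
      obtain ⟨f1, n1⟩ := (PR2_mem hSIZ).1 h1
      obtain ⟨f2, n2⟩ := (PR2_mem hSIZ).1 h2
      obtain ⟨u, hu1, hu2, hu3⟩ := PR2_rep_spec hFDE (mul8 p.1 p.2) (MUL_odd f1.1 f2.1)
      rw [h3] at hu3
      exact hu3
    have hterm : ∀ p ∈ (FF M ×ˢ FF N).filter (fun p => PR2_rep hFDE (mul8 p.1 p.2) = v),
        ‖F p.1 p.2‖ ≤ G (nn v) := by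
      intro p hp
      rw [Finset.mem_filter, Finset.mem_product] at hp
      obtain ⟨⟨h1, h2⟩, h3⟩ := hp
      obtain ⟨f1, n1⟩ := (PR2_mem hSIZ).1 h1
      obtain ⟨f2, n2⟩ := (PR2_mem hSIZ).1 h2
      obtain ⟨u, hu1, hu2, -⟩ := PR2_rep_spec hFDE (mul8 p.1 p.2) (MUL_odd f1.1 f2.1)
      have hnn : nn v = nn p.1 * nn p.2 := by
        rw [← h3, hu2, MUL_nn, MUL_nn, MUL_nn1 hu1, one_mul]
      rw [hnn]
      exact hF _ h1 _ h2
    refine le_trans (norm_sum_le _ _) (le_trans (Finset.sum_le_card_nsmul _ _ _ hterm) ?_)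
    rw [nsmul_eq_mul]
    have hc := PR2_card hFDE hFDU hCN2 hSIZ M N v hfv
    have hc' : (((FF M ×ˢ FF N).filter fun p => PR2_rep hFDE (mul8 p.1 p.2) = v).card : ℝ) ≤
        ((nn v).divisors.card : ℝ) ^ 3 := by exact_mod_cast hc
    exact mul_le_mul_of_nonneg_right hc' (hG _)
  · intro v hv
    obtain ⟨p, hp, hp0⟩ := Finset.exists_ne_zero_of_sum_ne_zero hv
    rw [Finset.mem_filter, Finset.mem_product] at hp
    obtain ⟨⟨h1, h2⟩, h3⟩ := hp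
    obtain ⟨f1, n1⟩ := (PR2_mem hSIZ).1 h1
    obtain ⟨f2, n2⟩ := (PR2_mem hSIZ).1 h2
    obtain ⟨u, hu1, hu2, -⟩ := PR2_rep_spec hFDE (mul8 p.1 p.2) (MUL_odd f1.1 f2.1)
    have hnn : nn v = nn p.1 * nn p.2 := by
      rw [← h3, hu2, MUL_nn, MUL_nn, MUL_nn1 hu1, one_mul]
    exact ⟨p.1, h1, p.2, h2, hp0, hnn⟩
  · intro Ψ hΨ
    have hval : ∀ p ∈ FF M ×ˢ FF N, Ψ (PR2_rep hFDE (mul8 p.1 p.2)) = Ψ p.1 * Ψ p.2 ∧
        PR2_rep hFDE (mul8 p.1 p.2) ∈ FF (M * N) := by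
      intro p hp
      rw [Finset.mem_product] at hp
      obtain ⟨f1, n1⟩ := (PR2_mem hSIZ).1 hp.1
      obtain ⟨f2, n2⟩ := (PR2_mem hSIZ).1 hp.2
      obtain ⟨u, hu1, hu2, hu3⟩ := PR2_rep_spec hFDE (mul8 p.1 p.2) (MUL_odd f1.1 f2.1)
      constructor
      · rw [hu2, hΨ.1 _ _ (MUL_unit hu1) (MUL_odd f1.1 f2.1), hΨ.2 _ hu1, one_mul, hΨ.1 _ _ f1.1 f2.1]
      · rw [PR2_mem hSIZ]
        refine ⟨hu3, ?_⟩
        rw [hu2, MUL_nn, MUL_nn, MUL_nn1 hu1, one_mul]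
        exact Nat.mul_le_mul n1 n2
    rw [← Finset.sum_product']
    rw [← Finset.sum_fiberwise_of_maps_to (t := FF (M * N)) (g := fun p => PR2_rep hFDE (mul8 p.1 p.2))
      (fun p hp => (hval p hp).2)]
    refine Finset.sum_congr rfl fun v _ => ?_
    rw [Finset.sum_mul]
    refine Finset.sum_congr rfl fun p hp => ?_
    rw [Finset.mem_filter] at hp
    have := (hval p hp.1).1
    rw [hp.2] at this
    rw [this]

end Pool.Agent.EU
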